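import Pool.Agent.L0h98.RF.Def
import Pool.Agent.N835.LF.Det
import Pool.Agent.N622.LF.Str
import Pool.Agent.TH583.FO.Main
import Pool.Agent.H185C.T11

/-! # Project RF, module CUBF -/

set_option autoImplicit false

namespace Pool.Agent.L0h48.RF

open Finset
open Pool.Agent.H160R2.HF Pool.Agent.L0h98.RF

variable {V E : Type} [Fintype V] [Fintype E] [DecidableEq V] [DecidableEq E]

theorem mem_ins (G : OrGraph V E) (X : Finset V) (e : E) :
    e ∈ ins G X ↔ G.t e ∈ X ∧ G.h e ∈ X := by
  unfold ins
  simp

theorem ins_hand (G : OrGraph V E) (X : Finset V) (hc : G.Cubic) :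
    3 * X.card = 2 * (ins G X).card + (G.cut X).card := by
  have h := G.handshake univ X
  rw [inter_univ, sum_congr rfl (fun v _ => hc v), sum_const, smul_eq_mul] at h
  have e : univ.filter (fun e => G.t e ∈ X ∧ G.h e ∈ X) = ins G X := by
    ext e
    rw [mem_ins]
    simp
  rw [e] at h
  omega

theorem K0 (q : ℕ) : q + 5 ≤ 4 ^ (10 * q + 5) := by
  have h : 10 * q + 5 < 4 ^ (10 * q + 5) := Nat.lt_pow_self (by norm_num)
  omega

theorem t_CUBF : S_CUBF := by
  intro V E _ _ _ _ G q hc hl hexp hsm
  have hK := K0 q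
  -- an inner edge requires two points
  have hone : ∀ X : Finset V, X.card = 1 → (ins G X).card = 0 := by
    intro X hX
    obtain ⟨v, rfl⟩ := Finset.card_eq_one.1 hX
    rw [Finset.card_eq_zero, Finset.eq_empty_iff_forall_notMem]
    intro e he
    rw [mem_ins, mem_singleton, mem_singleton] at he
    exact hl e (he.1.trans he.2.symm)
  have hcc : ∀ X : Finset V, G.cut Xᶜ = G.cut X := Pool.Agent.H185C.cut_compl G
  -- no small cuts
  have hsmallcut : ∀ X : Finset V, X.Nonempty → 2 * X.card ≤ Fintype.card V →
      2 ≤ (G.cut X).card := by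
    intro X hX h2
    by_contra hcon
    have h3 := hexp X h2
    have h4 : X.card ≤ q := by
      refine h3.trans ?_
      calc q * (G.cut X).card ≤ q * 1 := Nat.mul_le_mul_left _ (by omega)
        _ = q := mul_one q
    have h5 := hsm X (by omega)
    have h6 := ins_hand G X hc
    have h7 := hX.card_pos
    have h8 : X.card = 1 := by omega
    have h9 := hone X h8
    omega
  have hb : G.Bridgeless := by
    classical
    intro e
    by_contra hcon
    obtain ⟨X, hX⟩ : ∃ X : Finset V, ∀ v, v ∈ X ↔
        (G.sub (univ.erase e)).Reachable (G.t e) v :=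
      ⟨univ.filter fun v => (G.sub (univ.erase e)).Reachable (G.t e) v, fun v => by simp⟩
    have h1 : G.cut X ⊆ {e} := by
      intro e' he'
      rw [mem_singleton]
      by_contra hne
      unfold OrGraph.cut at he'
      rw [mem_filter] at he'
      apply he'.2
      have hadj : G.t e' ≠ G.h e' → (G.sub (univ.erase e)).Adj (G.t e') (G.h e') := by
        intro hh
        unfold OrGraph.sub
        rw [SimpleGraph.fromRel_adj]
        exact ⟨hh, Or.inl ⟨e', by simp [hne], rfl, rfl⟩⟩
      have ha := hadj (hl e')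
      rw [hX, hX]
      exact ⟨fun h => h.trans ha.reachable, fun h => h.trans ha.symm.reachable⟩
    have h2 : (G.cut X).card ≤ 1 := (card_le_card h1).trans (by simp)
    have ht : G.t e ∈ X := (hX _).2 (SimpleGraph.Reachable.refl _)
    have hh : G.h e ∈ Xᶜ := by
      rw [mem_compl, hX]
      exact hcon
    by_cases h : 2 * X.card ≤ Fintype.card V
    · have := hsmallcut X ⟨_, ht⟩ h
      omega
    · have h6 := Finset.card_compl X
      have := hsmallcut Xᶜ ⟨_, hh⟩ (by omega)
      rw [hcc] at this
      omega
  obtain ⟨F, hF, h3, -⟩ := Pool.Agent.TH583.FO.factor G hc hb (fun _ => 0) (fun _ => le_rfl)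
  obtain ⟨φ₂, φ₄, hp, -⟩ := Pool.Agent.N835.LF.det q V E G hc hexp (by
    intro X hX
    have h5 := hsm X hX
    have h6 := ins_hand G X hc
    omega) F hF (by
    intro X hX hodd
    by_contra hlt
    have h5 := hsm X (by omega)
    have h6 := ins_hand G X hc
    have h7 := G.handshake F X
    rw [hX, card_empty, add_zero, sum_congr rfl (fun v _ => hF v), sum_const, smul_eq_mul] at h7
    have h8 : (F.filter (fun e => G.t e ∈ X ∧ G.h e ∈ X)).card ≤ (ins G X).card := by
      apply card_le_card
      intro e he
      rw [mem_filter] at he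
      exact (mem_ins G X e).2 he.2
    obtain ⟨k, hk⟩ := hodd
    rcases Nat.lt_or_ge k 1 with h9 | h9
    · have h10 := hone X (by omega)
      omega
    · have h10 : (G.cut X).card = 3 := by omega
      have h11 := h3 X h10
      rw [hX] at h11
      exact not_nonempty_empty h11)
  obtain ⟨φ, f1, f2⟩ := Pool.Agent.H185C.five_flow G φ₂ φ₄ hp
  refine ⟨φ, ?_, f2⟩
  intro v
  have h := f1 v
  convert h

end Pool.Agent.L0h48.RF
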