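import Pool.Agent.L0h98.RF.Def

/-! # Project RF, module SMX -/

set_option autoImplicit false

namespace Pool.Agent.L0h48.RF

open Finset
open Pool.Agent.H160R2.HF Pool.Agent.L0h98.RF

theorem mem_ins' {V E : Type} [Fintype E] (G : OrGraph V E) (X : Finset V) (e : E) :
    e ∈ ins G X ↔ G.t e ∈ X ∧ G.h e ∈ X := by
  unfold ins
  simp

theorem t_SMX : S_SMX := by
  classical
  intro V E _ _ _ _ B h3 lab K hK X hX
  set T : Finset V := X.image Sigma.fst with hT
  have hTX : T.card ≤ X.card := card_image_le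
  have h1 := hK T (hTX.trans hX)
  -- the two kinds of edges
  have hcard : (ins (Ex B h3 lab) X).card =
      (univ.filter fun e : E => (Ex B h3 lab).t (Sum.inl e) ∈ X ∧
        (Ex B h3 lab).h (Sum.inl e) ∈ X).card +
      (univ.filter fun y : Σ v, Fin (B.deg univ v - 3) => (Ex B h3 lab).t (Sum.inr y) ∈ X ∧
        (Ex B h3 lab).h (Sum.inr y) ∈ X).card := by
    rw [← card_disjSum]
    congr 1
    ext x
    rw [mem_ins']
    cases x <;> simp
  have hA : (univ.filter fun e : E => (Ex B h3 lab).t (Sum.inl e) ∈ X ∧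
        (Ex B h3 lab).h (Sum.inl e) ∈ X).card ≤ (ins B T).card := by
    apply card_le_card
    intro e he
    rw [mem_filter] at he
    rw [mem_ins']
    refine ⟨?_, ?_⟩
    · exact mem_image.2 ⟨_, he.2.1, rfl⟩
    · exact mem_image.2 ⟨_, he.2.2, rfl⟩
  obtain ⟨Pd, hPd⟩ : ∃ Pd : (Σ v, Fin (B.deg univ v - 2)) → Prop, ∀ x, Pd x ↔
    ∃ y ∈ X, y.1 = x.1 ∧ (y.2 : ℕ) + 1 = (x.2 : ℕ) := ⟨_, fun x => Iff.rfl⟩
  have hB : (univ.filter fun y : Σ v, Fin (B.deg univ v - 3) => (Ex B h3 lab).t (Sum.inr y) ∈ X ∧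
        (Ex B h3 lab).h (Sum.inr y) ∈ X).card ≤ (X.filter Pd).card := by
    apply card_le_card_of_injOn (fun y => (Ex B h3 lab).h (Sum.inr y))
    · intro y hy
      simp only [coe_filter, mem_univ, true_and, Set.mem_ofPred_eq] at hy
      simp only [coe_filter, Set.mem_ofPred_eq]
      refine ⟨hy.2, (hPd _).2 ⟨_, hy.1, rfl, rfl⟩⟩
    · rintro ⟨v, j⟩ - ⟨v', j'⟩ - h
      have e1 : v = v' := congrArg Sigma.fst h
      subst e1
      have e2 : (⟨v, ⟨j.1 + 1, by have := j.2; omega⟩⟩ : Σ v, Fin (B.deg univ v - 2)) =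
        ⟨v, ⟨j'.1 + 1, by have := j'.2; omega⟩⟩ := h
      rw [Sigma.mk.injEq] at e2
      have e3 := eq_of_heq e2.2
      rw [Fin.mk.injEq] at e3
      have e4 : j = j' := Fin.ext (by omega)
      rw [e4]
  have hC : T.card ≤ (X.filter fun x => ¬ Pd x).card := by
    apply card_le_card_of_surjOn (fun x => x.1)
    intro v hv
    rw [hT, coe_image] at hv
    obtain ⟨x, hx, hxv⟩ := hv
    obtain ⟨y, hy, hmin⟩ := exists_min_image (X.filter fun y => y.1 = v)
      (fun y => (y.2 : ℕ)) ⟨x, mem_filter.2 ⟨hx, hxv⟩⟩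
    rw [mem_filter] at hy
    refine ⟨y, ?_, hy.2⟩
    simp only [coe_filter, Set.mem_ofPred_eq]
    refine ⟨hy.1, fun hp => ?_⟩
    obtain ⟨z, hz, hz1, hz2⟩ := (hPd y).1 hp
    have := hmin z (mem_filter.2 ⟨hz, hz1.trans hy.2⟩)
    omega
  have hD := card_filter_add_card_filter_not (s := X) Pd
  rw [hcard]
  omega

end Pool.Agent.L0h48.RF
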